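import Pool.Agent.P.MP_aa0c4d_al.Invol

/-! Computations with products of the commuting factors `α + β e_{2j} e_{2j+1}`. -/

namespace Pool.Agent.P.MP_aa0c4d_al

open CliffordAlgebra
open scoped InnerProductSpace

variable {n : ℕ}

/-- the standard basis vectors, indexed by natural numbers -/
noncomputable def bv (n i : ℕ) : EuclideanSpace ℝ (Fin n) :=
  if h : i < n then EuclideanSpace.single ⟨i, h⟩ 1 else 0

theorem e_eq (n i : ℕ) : e n i = io (bv n i) := by
  unfold e bv
  split_ifs
  · rfl
  · simp [io]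

theorem bv_norm {i : ℕ} (h : i < n) : ‖bv n i‖ = 1 := by simp [bv, h]

theorem bv_orth {i j : ℕ} (h : i ≠ j) : ⟪bv n i, bv n j⟫_ℝ = 0 := by
  unfold bv
  split_ifs with h1 h2
  · rw [EuclideanSpace.inner_single_left]
    simp [h]
  all_goals simp

theorem e_anti {i j : ℕ} (h : i ≠ j) : e n i * e n j = -(e n j * e n i) := by
  rw [e_eq, e_eq]
  exact io_anti (bv_orth h)

theorem e_sq {i : ℕ} (h : i < n) : e n i * e n i = -1 := by
  rw [e_eq]
  exact io_sq (bv_norm h)

/-- the bivector of the `j`-th plane -/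
noncomputable def w (n j : ℕ) : Cl n := e n (2 * j) * e n (2 * j + 1)

theorem e_comm_w {i j : ℕ} (h1 : i ≠ 2 * j) (h2 : i ≠ 2 * j + 1) : Commute (e n i) (w n j) := by
  unfold Commute SemiconjBy w
  rw [← mul_assoc, e_anti h1, neg_mul, mul_assoc, e_anti h2]
  simp [mul_assoc]

theorem w_comm (i j : ℕ) : Commute (w n i) (w n j) := by
  by_cases h : i = j
  · rw [h]
  · exact Commute.mul_left (e_comm_w (by omega) (by omega)) (e_comm_w (by omega) (by omega))

theorem w_mul_a {j : ℕ} (h : 2 * j + 1 < n) : w n j * e n (2 * j) = e n (2 * j + 1) := by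
  rw [w, mul_assoc, e_anti (by omega : 2 * j + 1 ≠ 2 * j), mul_neg, ← mul_assoc,
    e_sq (by omega)]
  simp

theorem w_mul_b {j : ℕ} (h : 2 * j + 1 < n) : w n j * e n (2 * j + 1) = -e n (2 * j) := by
  rw [w, mul_assoc, e_sq h]
  simp

theorem a_mul_w {j : ℕ} (h : 2 * j + 1 < n) : e n (2 * j) * w n j = -e n (2 * j + 1) := by
  rw [w, ← mul_assoc, e_sq (by omega)]
  simp

theorem b_mul_w {j : ℕ} (h : 2 * j + 1 < n) : e n (2 * j + 1) * w n j = e n (2 * j) := by
  rw [w, ← mul_assoc, e_anti (by omega : 2 * j + 1 ≠ 2 * j), neg_mul, mul_assoc, e_sq h]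
  simp

theorem w_sq {j : ℕ} (h : 2 * j + 1 < n) : w n j * w n j = -1 := by
  nth_rewrite 2 [w]
  rw [← mul_assoc, w_mul_a h, e_sq h]

/-- the product of the first `m` factors -/
noncomputable def E (n : ℕ) (α β : ℕ → ℝ) (m : ℕ) : Cl n :=
  ((List.range m).map fun j => α j • (1 : Cl n) + β j • w n j).prod

theorem normalForm_eq (θ : ℕ → ℝ) :
    normalForm n θ = E n (fun j => Real.cos (θ j)) (fun j => Real.sin (θ j)) (n / 2) := rfl

@[simp] theorem E_zero (α β : ℕ → ℝ) : E n α β 0 = 1 := rfl

theorem E_succ (α β : ℕ → ℝ) (m : ℕ) :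
    E n α β (m + 1) = E n α β m * (α m • (1 : Cl n) + β m • w n m) := by
  simp [E, List.range_succ]

theorem conj_E {g : Cl n} {ε : ℕ → ℝ} (α β : ℕ → ℝ) (m : ℕ)
    (h : ∀ j < m, g * w n j = ε j • (w n j * g)) :
    g * E n α β m = E n α (fun j => ε j * β j) m * g := by
  induction m with
  | zero => simp
  | succ m ih =>
    rw [E_succ, E_succ, ← mul_assoc, ih fun j hj => h j (by omega), mul_assoc, mul_assoc]
    congr 1
    rw [mul_add, add_mul, mul_smul_comm, mul_smul_comm, h m (by omega), smul_mul_assoc,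
      smul_mul_assoc, smul_smul, mul_comm (β m)]
    simp

theorem commute_E {y : Cl n} (α β : ℕ → ℝ) (m : ℕ) (h : ∀ j < m, Commute y (w n j)) :
    Commute y (E n α β m) := by
  have := conj_E (g := y) (ε := fun _ => 1) α β m fun j hj => by rw [one_smul]; exact h j hj
  simp only [one_mul] at this
  exact this

theorem E_mul (α β α' β' : ℕ → ℝ) (m : ℕ) (hm : 2 * m ≤ n) :
    E n α β m * E n α' β' m =
      E n (fun j => α j * α' j - β j * β' j) (fun j => α j * β' j + β j * α' j) m := by
  induction m with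
  | zero => simp
  | succ m ih =>
    have hc : Commute (α m • (1 : Cl n) + β m • w n m) (E n α' β' m) :=
      Commute.add_left ((Commute.one_left _).smul_left _)
        ((commute_E _ _ _ fun j _ => w_comm m j).smul_left _)
    rw [E_succ, E_succ, E_succ, ← ih (by omega), mul_assoc, ← mul_assoc (_ + _), hc.eq, mul_assoc,
      mul_assoc]
    congr 2
    simp only [mul_add, add_mul, mul_smul_comm, smul_mul_assoc, one_mul, mul_one,
      w_sq (by omega : 2 * m + 1 < n)]
    module

theorem tau_E (α β : ℕ → ℝ) (m : ℕ) (hm : 2 * m ≤ n) :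
    tau (E n α β m) = (∏ j ∈ Finset.range m, α j) * tau (1 : Cl n) := by
  induction m with
  | zero => simp
  | succ m ih =>
    have h0 : tau (E n α β m * w n m) = 0 := by
      refine tau_eq_zero (w := e n (2 * m)) (e_sq (by omega)) ?_
      have hc : Commute (e n (2 * m)) (E n α β m) :=
        commute_E _ _ _ fun j hj => e_comm_w (by omega) (by omega)
      rw [mul_assoc, w_mul_a (by omega), ← mul_assoc, hc.eq, mul_assoc, a_mul_w (by omega)]
      simp
    rw [E_succ, mul_add, mul_smul_comm, mul_smul_comm, mul_one, map_add, map_smul, map_smul, h0,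
      ih (by omega), Finset.prod_range_succ]
    simp only [smul_eq_mul]
    ring

theorem E_scalar (α β : ℕ → ℝ) (m : ℕ) (h : ∀ j < m, β j = 0) :
    E n α β m = (∏ j ∈ Finset.range m, α j) • (1 : Cl n) := by
  induction m with
  | zero => simp
  | succ m ih =>
    rw [E_succ, ih fun j hj => h j (by omega), h m (by omega), Finset.prod_range_succ]
    simp [smul_smul, mul_comm]

theorem E_semiconj (α β : ℕ → ℝ) (m : ℕ) {j : ℕ} (hj : j < m) {v v' : Cl n}
    (hv : ∀ i, i ≠ j → Commute v (w n i)) (hv' : ∀ i, i ≠ j → Commute v' (w n i))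
    (h : (α j • (1 : Cl n) + β j • w n j) * v = v' * (α j • (1 : Cl n) + β j • w n j)) :
    E n α β m * v = v' * E n α β m := by
  induction m with
  | zero => omega
  | succ m ih =>
    rcases Nat.lt_succ_iff_lt_or_eq.1 hj with h1 | rfl
    · have hc : Commute v (α m • (1 : Cl n) + β m • w n m) :=
        Commute.add_right ((Commute.one_right _).smul_right _) ((hv m (by omega)).smul_right _)
      rw [E_succ, mul_assoc, ← hc.eq, ← mul_assoc, ih h1, mul_assoc]
    · have hc : Commute v' (E n α β j) := commute_E _ _ _ fun i hi => hv' i (by omega)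
      rw [E_succ, mul_assoc, h, ← mul_assoc, ← hc.eq, mul_assoc]

theorem E_act_a (α β : ℕ → ℝ) (m : ℕ) (hm : 2 * m ≤ n) {j : ℕ} (hj : j < m)
    (h1 : α j ^ 2 + β j ^ 2 = 1) :
    E n α β m * e n (2 * j) = ((α j ^ 2 - β j ^ 2) • e n (2 * j) +
      (2 * α j * β j) • e n (2 * j + 1)) * E n α β m := by
  refine E_semiconj α β m hj (fun i hi => e_comm_w (by omega) (by omega))
    (fun i hi => Commute.add_left ((e_comm_w (by omega) (by omega)).smul_left _)
      ((e_comm_w (by omega) (by omega)).smul_left _)) ?_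
  have h2 : 2 * j + 1 < n := by omega
  simp only [mul_add, add_mul, mul_smul_comm, smul_mul_assoc, one_mul, mul_one, w_mul_a h2,
    a_mul_w h2, b_mul_w h2]
  match_scalars
  · linear_combination (-α j) * h1
  · linear_combination (-β j) * h1

theorem E_act_b (α β : ℕ → ℝ) (m : ℕ) (hm : 2 * m ≤ n) {j : ℕ} (hj : j < m)
    (h1 : α j ^ 2 + β j ^ 2 = 1) :
    E n α β m * e n (2 * j + 1) = ((-(2 * α j * β j)) • e n (2 * j) +
      (α j ^ 2 - β j ^ 2) • e n (2 * j + 1)) * E n α β m := by
  refine E_semiconj α β m hj (fun i hi => e_comm_w (by omega) (by omega))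
    (fun i hi => Commute.add_left ((e_comm_w (by omega) (by omega)).smul_left _)
      ((e_comm_w (by omega) (by omega)).smul_left _)) ?_
  have h2 : 2 * j + 1 < n := by omega
  simp only [mul_add, add_mul, mul_smul_comm, smul_mul_assoc, one_mul, mul_one, w_mul_b h2,
    a_mul_w h2, b_mul_w h2]
  match_scalars
  · linear_combination (-α j) * h1
  · linear_combination (β j) * h1

theorem mem_spin_iff {g : Cl n} : g ∈ Spin n ↔ ∃ l : List (EuclideanSpace ℝ (Fin n)),
    Even l.length ∧ (∀ v ∈ l, ‖v‖ = 1) ∧ g = pr l := Iff.rfl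

theorem spin_mul {g h : Cl n} (hg : g ∈ Spin n) (hh : h ∈ Spin n) : g * h ∈ Spin n := by
  obtain ⟨l, h1, h2, rfl⟩ := mem_spin_iff.1 hg
  obtain ⟨l', h3, h4, rfl⟩ := mem_spin_iff.1 hh
  refine mem_spin_iff.2 ⟨l ++ l', by rw [List.length_append]; exact h1.add h3, ?_,
    (pr_append l l').symm⟩
  intro v hv
  rcases List.mem_append.1 hv with h | h
  · exact h2 v h
  · exact h4 v h

theorem E_mem_spin (α β : ℕ → ℝ) (m : ℕ) (hm : 2 * m ≤ n) (h1 : ∀ j, α j ^ 2 + β j ^ 2 = 1) :
    E n α β m ∈ Spin n := by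
  induction m with
  | zero => exact mem_spin_iff.2 ⟨[], by simp, by simp, rfl⟩
  | succ m ih =>
    rw [E_succ]
    refine spin_mul (ih (by omega)) (mem_spin_iff.2
      ⟨[bv n (2 * m), (-α m) • bv n (2 * m) + β m • bv n (2 * m + 1)], by simp, ?_, ?_⟩)
    · intro v hv
      simp only [List.mem_cons, List.not_mem_nil, or_false] at hv
      rcases hv with rfl | rfl
      · exact bv_norm (by omega)
      · have ha : ‖bv n (2 * m)‖ = 1 := bv_norm (by omega)
        have hb : ‖bv n (2 * m + 1)‖ = 1 := bv_norm (by omega)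
        have : ‖(-α m) • bv n (2 * m) + β m • bv n (2 * m + 1)‖ ^ 2 = 1 := by
          rw [norm_add_sq_real, inner_smul_left, inner_smul_right, bv_orth (by omega), norm_smul,
            norm_smul, ha, hb]
          simpa using h1 m
        exact (pow_eq_one_iff_of_nonneg (norm_nonneg _) two_ne_zero).1 this
    · rw [pr_cons, pr_cons, pr_nil, mul_one, io, io, map_add, map_smul, map_smul, mul_add,
        mul_smul_comm, mul_smul_comm, w, e_eq, e_eq]
      have := io_sq (bv_norm (by omega : 2 * m < n))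
      rw [io] at this
      rw [this]
      simp

end Pool.Agent.P.MP_aa0c4d_al
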