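import Mathlib

/-! The Clifford algebra `C_n`, the group `Spin(n)` and the normal form of the problem file. -/

namespace Pool.Agent.P.MP_aa0c4d_al

/-- The negative definite form `v ↦ -⟪v, v⟫` of a real inner product space. -/
noncomputable def negForm (V : Type) [NormedAddCommGroup V] [InnerProductSpace ℝ V] :
    QuadraticForm ℝ V :=
  -LinearMap.BilinMap.toQuadraticMap (innerₗ V)

/-- The Clifford algebra `C_n` of `ℝ^n`, in which `v * v = -‖v‖ ^ 2`. -/
abbrev Cl (n : ℕ) : Type := CliffordAlgebra (negForm (EuclideanSpace ℝ (Fin n)))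

/-- A vector of `ℝ^n` seen in `C_n`. -/
noncomputable abbrev vec {n : ℕ} (v : EuclideanSpace ℝ (Fin n)) : Cl n :=
  CliffordAlgebra.ι (negForm (EuclideanSpace ℝ (Fin n))) v

/-- The generators `e 0, …, e (n-1)` of `C_n` (the value for `i ≥ n` is `0` and is never used). -/
noncomputable def e (n i : ℕ) : Cl n :=
  if h : i < n then vec (EuclideanSpace.single ⟨i, h⟩ 1) else 0

/-- `Spin(n)`: the products of an even number of unit vectors. -/
def Spin (n : ℕ) : Set (Cl n) :=
  {g | ∃ l : List (EuclideanSpace ℝ (Fin n)),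
    Even l.length ∧ (∀ v ∈ l, ‖v‖ = 1) ∧ g = (l.map vec).prod}

/-- `x` is strongly reversible in `Spin(n)`: a product of two elements `g` with `g ^ 2 = 1`. -/
def StronglyReversible (n : ℕ) (x : Cl n) : Prop :=
  ∃ g ∈ Spin n, ∃ h ∈ Spin n, g * g = 1 ∧ h * h = 1 ∧ x = g * h

/-- The normal form `∏_{j < n/2} (cos θ_j + sin θ_j e_{2j} e_{2j+1})` (indices from 0). -/
noncomputable def normalForm (n : ℕ) (θ : ℕ → ℝ) : Cl n :=
  ((List.range (n / 2)).map fun j =>
    Real.cos (θ j) • (1 : Cl n) + Real.sin (θ j) • (e n (2 * j) * e n (2 * j + 1))).prod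

end Pool.Agent.P.MP_aa0c4d_al
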