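import Pool.Agent.P.MP_aa0c4d_al.Defs

/-! General facts on the Clifford algebra of a negative definite form. -/

namespace Pool.Agent.P.MP_aa0c4d_al

open CliffordAlgebra
open scoped InnerProductSpace

variable {V : Type} [NormedAddCommGroup V] [InnerProductSpace ℝ V]

/-- shorthand for the embedding of vectors -/
noncomputable abbrev io (v : V) : CliffordAlgebra (negForm V) := ι (negForm V) v

theorem negForm_apply (v : V) : negForm V v = -⟪v, v⟫_ℝ := by
  simp [negForm]

theorem polar_negForm (u v : V) : QuadraticMap.polar (negForm V) u v = -2 * ⟪u, v⟫_ℝ := by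
  simp only [QuadraticMap.polar, negForm_apply, inner_add_left, inner_add_right,
    real_inner_comm u v]
  ring

theorem io_mul_io_add (u v : V) :
    io u * io v + io v * io u = (-2 * ⟪u, v⟫_ℝ) • (1 : CliffordAlgebra (negForm V)) := by
  rw [ι_mul_ι_add_swap, polar_negForm, Algebra.algebraMap_eq_smul_one]

theorem io_anti {u v : V} (h : ⟪u, v⟫_ℝ = 0) : io u * io v = -(io v * io u) := by
  have := io_mul_io_add u v
  rw [h, mul_zero, zero_smul] at this
  exact eq_neg_of_add_eq_zero_left this

theorem io_sq {u : V} (h : ‖u‖ = 1) : io u * io u = -1 := by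
  rw [ι_sq_scalar, negForm_apply, real_inner_self_eq_norm_sq, h]
  simp

theorem io_injective : Function.Injective (io : V → _) := by
  intro u v h
  have h1 : io (u - v) = 0 := by simp [io, h]
  have h2 := ι_sq_scalar (negForm V) (u - v)
  rw [show ι (negForm V) (u - v) = 0 from h1, mul_zero, negForm_apply] at h2
  have h3 : -⟪u - v, u - v⟫_ℝ = 0 :=
    (algebraMap ℝ (CliffordAlgebra (negForm V))).injective (by rw [← h2, map_zero])
  have h4 : u - v = 0 := inner_self_eq_zero.1 (neg_eq_zero.1 h3)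
  exact sub_eq_zero.1 h4

/-- product of a list of vectors -/
noncomputable def pr (l : List V) : CliffordAlgebra (negForm V) := (l.map io).prod

@[simp] theorem pr_nil : pr ([] : List V) = 1 := rfl

theorem pr_cons (v : V) (l : List V) : pr (v :: l) = io v * pr l := by simp [pr]

theorem pr_append (l l' : List V) : pr (l ++ l') = pr l * pr l' := by simp [pr]

theorem involute_pr (l : List V) : involute (pr l) = (-1 : ℝ) ^ l.length • pr l :=
  involute_prod_map_ι l

/-- `g` acts on vectors by `σ` in the twisted adjoint action -/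
def Act (g : CliffordAlgebra (negForm V)) (σ : V →ₗ[ℝ] V) : Prop :=
  ∀ v, involute g * io v = io (σ v) * g

theorem Act.mul {g h : CliffordAlgebra (negForm V)} {σ τ : V →ₗ[ℝ] V} (hg : Act g σ)
    (hh : Act h τ) : Act (g * h) (σ ∘ₗ τ) := by
  intro v
  rw [map_mul, mul_assoc, hh, ← mul_assoc, hg, mul_assoc]
  rfl

theorem act_one : Act (1 : CliffordAlgebra (negForm V)) LinearMap.id := by
  intro v
  simp

theorem act_io {u : V} (hu : ‖u‖ = 1) :
    ∃ σ : V →ₗ[ℝ] V, (∀ a b, ⟪σ a, σ b⟫_ℝ = ⟪a, b⟫_ℝ) ∧ Act (io u) σ := by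
  have huu : ⟪u, u⟫_ℝ = 1 := by rw [real_inner_self_eq_norm_sq, hu]; norm_num
  refine ⟨LinearMap.id - (2 : ℝ) • (LinearMap.toSpanSingleton ℝ V u ∘ₗ innerₗ V u), ?_, ?_⟩
  · intro a b
    simp only [LinearMap.sub_apply, LinearMap.id_apply, LinearMap.smul_apply,
      LinearMap.comp_apply, LinearMap.toSpanSingleton_apply, innerₗ_apply_apply, inner_sub_left,
      inner_sub_right, inner_smul_left, inner_smul_right, huu, real_inner_comm u a]
    simp
    ring
  · intro v
    have h1 := io_mul_io_add u v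
    have h2 := io_sq hu
    simp only [LinearMap.sub_apply, LinearMap.id_apply, LinearMap.smul_apply,
      LinearMap.comp_apply, LinearMap.toSpanSingleton_apply, innerₗ_apply_apply, io, map_sub,
      map_smul, involute_ι] at *
    rw [sub_mul, smul_mul_assoc, smul_mul_assoc, h2, neg_mul, eq_sub_of_add_eq h1]
    module

theorem act_pr (l : List V) (hl : ∀ v ∈ l, ‖v‖ = 1) :
    ∃ σ : V →ₗ[ℝ] V, (∀ a b, ⟪σ a, σ b⟫_ℝ = ⟪a, b⟫_ℝ) ∧ Act (pr l) σ := by
  induction l with
  | nil => exact ⟨LinearMap.id, fun _ _ => rfl, act_one⟩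
  | cons u l ih =>
    obtain ⟨τ, h1, h2⟩ := ih fun v hv => hl v (List.mem_cons_of_mem _ hv)
    obtain ⟨σ, h3, h4⟩ := act_io (hl u List.mem_cons_self)
    refine ⟨σ ∘ₗ τ, fun a b => ?_, ?_⟩
    · simp [h3, h1]
    · rw [pr_cons]
      exact h4.mul h2

theorem reverse_pr_mul (l : List V) (hl : ∀ v ∈ l, ‖v‖ = 1) :
    reverse (pr l) * pr l = (-1 : ℝ) ^ l.length • 1 := by
  induction l with
  | nil => simp
  | cons u l ih =>
    have := ih fun v hv => hl v (List.mem_cons_of_mem _ hv)
    rw [pr_cons, reverse.map_mul, reverse_ι, mul_assoc, ← mul_assoc (ι _ u),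
      io_sq (hl u List.mem_cons_self), neg_one_mul, mul_neg, this]
    simp [pow_succ]

theorem pr_comm_of_orth (l : List V) {v : V} (h : ∀ f ∈ l, ⟪f, v⟫_ℝ = 0) :
    involute (pr l) * io v = io v * pr l := by
  induction l with
  | nil => simp
  | cons u l ih =>
    have := ih fun f hf => h f (List.mem_cons_of_mem _ hf)
    rw [pr_cons, map_mul, mul_assoc, this, involute_ι, neg_mul, ← mul_assoc,
      io_anti (h u List.mem_cons_self)]
    simp [mul_assoc]

theorem pr_comm_of_mem (l : List V) (ho : l.Pairwise fun a b => ⟪a, b⟫_ℝ = 0) {v : V}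
    (hv : v ∈ l) : involute (pr l) * io v = -(io v * pr l) := by
  induction l with
  | nil => simp at hv
  | cons u l ih =>
    obtain ⟨h1, h2⟩ := List.pairwise_cons.1 ho
    rcases List.mem_cons.1 hv with rfl | hv'
    · rw [pr_cons, map_mul, mul_assoc,
        pr_comm_of_orth l fun f hf => by rw [real_inner_comm]; exact h1 f hf, involute_ι, neg_mul]
    · rw [pr_cons, map_mul, mul_assoc, ih h2 hv', involute_ι, neg_mul, mul_neg, neg_neg,
        ← mul_assoc, io_anti (h1 v hv')]
      simp [mul_assoc]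

theorem pr_sq (l : List V) (hl : ∀ v ∈ l, ‖v‖ = 1) (ho : l.Pairwise fun a b => ⟪a, b⟫_ℝ = 0) :
    pr l * pr l = (-1 : ℝ) ^ (l.length + 1).choose 2 • 1 := by
  induction l with
  | nil => simp
  | cons u l ih =>
    obtain ⟨h1, h2⟩ := List.pairwise_cons.1 ho
    have h3 := ih (fun v hv => hl v (List.mem_cons_of_mem _ hv)) h2
    have h4 := pr_comm_of_orth l (v := u) fun f hf => by rw [real_inner_comm]; exact h1 f hf
    rw [involute_pr, smul_mul_assoc] at h4
    have h5 : pr l * io u = (-1 : ℝ) ^ l.length • (io u * pr l) := by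
      rw [← h4, smul_smul, ← mul_pow]
      simp
    rw [pr_cons, mul_assoc, ← mul_assoc (pr l), h5, smul_mul_assoc, mul_smul_comm, mul_assoc,
      h3, ← mul_assoc, io_sq (hl u List.mem_cons_self), List.length_cons,
      Nat.choose_succ_succ' (l.length + 1) 1, Nat.choose_one_right, pow_add, pow_succ]
    simp [smul_smul]

theorem sign_choose {k : ℕ} (hk : k % 2 = 0) :
    (-1 : ℝ) ^ (k + 1).choose 2 = if k % 4 = 0 then 1 else -1 := by
  obtain ⟨l, rfl⟩ : ∃ l, k = 2 * l := ⟨k / 2, by omega⟩
  have h : (2 * l + 1).choose 2 = (2 * l + 1) * l := by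
    rw [Nat.choose_two_right, Nat.add_sub_cancel, ← mul_assoc, mul_right_comm,
      Nat.mul_div_cancel _ (by norm_num)]
  rw [h, pow_mul, pow_succ, pow_mul]
  rcases Nat.even_or_odd l with hl | hl
  · have : 2 * l % 4 = 0 := by obtain ⟨r, rfl⟩ := hl; omega
    simp [this, hl.neg_one_pow]
  · have : ¬ 2 * l % 4 = 0 := by obtain ⟨r, rfl⟩ := hl; omega
    simp [this, hl.neg_one_pow]

section scalar

variable {I : Type} [Fintype I] [DecidableEq I] (b : OrthonormalBasis I ℝ V)

omit [DecidableEq I] in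
theorem adjoin_comm (S : Finset I) {i : I} (hi : i ∉ S) {a : CliffordAlgebra (negForm V)}
    (ha : a ∈ Algebra.adjoin ℝ ((fun j => io (b j)) '' S)) :
    involute a * io (b i) = io (b i) * a ∧
      involute a ∈ Algebra.adjoin ℝ ((fun j => io (b j)) '' S) := by
  induction ha using Algebra.adjoin_induction with
  | mem x hx =>
    obtain ⟨j, hj, rfl⟩ := hx
    have hij : j ≠ i := fun h => hi (h ▸ hj)
    refine ⟨?_, ?_⟩
    · rw [involute_ι, neg_mul, io_anti (b.orthonormal.2 hij), neg_neg]
    · rw [involute_ι]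
      exact neg_mem (Algebra.subset_adjoin ⟨j, hj, rfl⟩)
  | algebraMap r => exact ⟨by simp [Algebra.commutes], by simp⟩
  | add x y _ _ hx hy => exact ⟨by rw [map_add, add_mul, mul_add, hx.1, hy.1],
      by rw [map_add]; exact add_mem hx.2 hy.2⟩
  | mul x y _ _ hx hy => exact ⟨by rw [map_mul, mul_assoc, hy.1, ← mul_assoc, hx.1, mul_assoc],
      by rw [map_mul]; exact mul_mem hx.2 hy.2⟩

theorem adjoin_decomp (S : Finset I) {i : I} (hi : i ∉ S) {u : CliffordAlgebra (negForm V)}
    (hu : u ∈ Algebra.adjoin ℝ ((fun j => io (b j)) '' (insert i S : Finset I))) :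
    ∃ a ∈ Algebra.adjoin ℝ ((fun j => io (b j)) '' S),
      ∃ a' ∈ Algebra.adjoin ℝ ((fun j => io (b j)) '' S), u = a + io (b i) * a' := by
  induction hu using Algebra.adjoin_induction with
  | mem x hx =>
    obtain ⟨j, hj, rfl⟩ := hx
    rcases Finset.mem_insert.1 (Finset.mem_coe.1 hj) with rfl | hj
    · exact ⟨0, zero_mem _, 1, one_mem _, by simp⟩
    · exact ⟨_, Algebra.subset_adjoin ⟨j, hj, rfl⟩, 0, zero_mem _, by simp⟩
  | algebraMap r => exact ⟨_, Subalgebra.algebraMap_mem _ r, 0, zero_mem _, by simp⟩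
  | add x y _ _ hx hy =>
    obtain ⟨a, ha, a', ha', rfl⟩ := hx
    obtain ⟨c, hc, c', hc', rfl⟩ := hy
    exact ⟨a + c, add_mem ha hc, a' + c', add_mem ha' hc', by noncomm_ring⟩
  | mul x y _ _ hx hy =>
    obtain ⟨a, ha, a', ha', rfl⟩ := hx
    obtain ⟨c, hc, c', hc', rfl⟩ := hy
    have h1 := adjoin_comm b S hi (adjoin_comm b S hi ha).2
    have h2 := adjoin_comm b S hi ha'
    rw [involute_involute] at h1
    have h3 := io_sq (b.orthonormal.1 i)
    refine ⟨a * c - involute a' * c', sub_mem (mul_mem ha hc) (mul_mem h2.2 hc'),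
      involute a * c' + a' * c, add_mem (mul_mem (adjoin_comm b S hi ha).2 hc') (mul_mem ha' hc),
      ?_⟩
    have h4 : io (b i) * a' * io (b i) = -involute a' := by
      rw [← h2.1, mul_assoc, h3, mul_neg_one]
    calc (a + io (b i) * a') * (c + io (b i) * c')
        = a * c + (a * io (b i)) * c' + io (b i) * a' * c + (io (b i) * a' * io (b i)) * c' := by
          noncomm_ring
      _ = _ := by rw [h1.1, h4]; noncomm_ring

theorem scalar_aux (S : Finset I) : ∀ u ∈ Algebra.adjoin ℝ ((fun j => io (b j)) '' S),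
    (∀ i, involute u * io (b i) = io (b i) * u) → ∃ c : ℝ, u = c • 1 := by
  induction S using Finset.induction_on with
  | empty =>
    intro u hu _
    simp only [Finset.coe_empty, Set.image_empty, Algebra.adjoin_empty] at hu
    obtain ⟨c, rfl⟩ := Algebra.mem_bot.1 hu
    exact ⟨c, Algebra.algebraMap_eq_smul_one c⟩
  | insert i S hi ih =>
    intro u hu h
    obtain ⟨a, ha, a', ha', rfl⟩ := adjoin_decomp b S hi hu
    have h1 := (adjoin_comm b S hi ha).1
    have h2 := (adjoin_comm b S hi ha').1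
    have h3 := io_sq (b.orthonormal.1 i)
    have h4 := h i
    rw [map_add, map_mul, involute_ι, add_mul, mul_add, h1, mul_assoc, h2, ← mul_assoc,
      ← mul_assoc, neg_mul, h3] at h4
    have h5 : a' = 0 := by
      have h6 : (2 : ℝ) • a' = 0 := by
        have := add_left_cancel h4
        rw [neg_neg, one_mul, neg_one_mul] at this
        rw [two_smul]
        nth_rewrite 1 [this]
        simp
      simpa using h6
    subst h5
    simp only [mul_zero, add_zero] at h ⊢
    exact ih a ha h

include b in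
theorem scalar_of_act {u : CliffordAlgebra (negForm V)} (h : Act u LinearMap.id) :
    ∃ c : ℝ, u = c • 1 := by
  refine scalar_aux b Finset.univ u ?_ fun i => h (b i)
  have : Algebra.adjoin ℝ (Set.range (ι (negForm V))) ≤
      Algebra.adjoin ℝ ((fun j => io (b j)) '' (Finset.univ : Finset I)) := by
    refine Algebra.adjoin_le ?_
    rintro _ ⟨v, rfl⟩
    rw [← b.sum_repr v, map_sum]
    refine Subalgebra.sum_mem _ fun j _ => ?_
    rw [map_smul]
    refine Subalgebra.smul_mem _ (Algebra.subset_adjoin ?_) _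
    exact ⟨j, by simp, rfl⟩
  exact this (by rw [adjoin_range_ι]; trivial)

end scalar

end Pool.Agent.P.MP_aa0c4d_al
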