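import Pool.Agent.P.MP_aa0c4d_al.General

/-! Involutions of the spin group and the trace functional. -/

namespace Pool.Agent.P.MP_aa0c4d_al

open CliffordAlgebra
open scoped InnerProductSpace

variable {V : Type} [NormedAddCommGroup V] [InnerProductSpace ℝ V]

theorem Act.unique {g g' : CliffordAlgebra (negForm V)} {σ τ : V →ₗ[ℝ] V} (hg : g * g' = 1)
    (h1 : Act g σ) (h2 : Act g τ) : σ = τ := by
  ext v
  apply io_injective
  have := (h1 v).symm.trans (h2 v)
  rw [← mul_one (io (σ v)), ← mul_one (io (τ v)), ← hg, ← mul_assoc, this, mul_assoc]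

theorem Act.invol {g : CliffordAlgebra (negForm V)} {σ : V →ₗ[ℝ] V} (hg : g * g = 1)
    (h : Act g σ) (v : V) : σ (σ v) = v := by
  have h1 := h.mul h
  rw [hg] at h1
  have := Act.unique (one_mul 1) h1 act_one
  exact LinearMap.congr_fun this v

theorem symm_of_invol {σ : V →ₗ[ℝ] V} (hi : ∀ a b, ⟪σ a, σ b⟫_ℝ = ⟪a, b⟫_ℝ)
    (h2 : ∀ v, σ (σ v) = v) (a b : V) : ⟪σ a, b⟫_ℝ = ⟪a, σ b⟫_ℝ := by
  rw [← hi a (σ b), h2]

variable [FiniteDimensional ℝ V]

/-- An involution of the spin group acts with a `-1` eigenspace of dimension divisible by 4. -/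
theorem trace_invol (l : List V) (he : Even l.length)
    (hg : pr l * pr l = 1) {σ : V →ₗ[ℝ] V} (hi : ∀ a b, ⟪σ a, σ b⟫_ℝ = ⟪a, b⟫_ℝ)
    (h : Act (pr l) σ) :
    ∃ k : ℕ, k % 4 = 0 ∧ LinearMap.trace ℝ V σ = Module.finrank ℝ V - 2 * k := by
  have h2 := h.invol hg
  have hs := symm_of_invol hi h2
  let W : Submodule ℝ V := LinearMap.ker (σ + LinearMap.id)
  have hW : ∀ v, v ∈ W ↔ σ v = -v := fun v => by
    simp [W, add_eq_zero_iff_eq_neg]
  let P : V →ₗ[ℝ] V := (1 / 2 : ℝ) • (LinearMap.id - σ)
  have hP : LinearMap.IsProj W P := by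
    refine ⟨fun v => (hW _).2 ?_, fun v hv => ?_⟩
    · simp only [P, LinearMap.smul_apply, LinearMap.sub_apply, LinearMap.id_apply, map_smul,
        map_sub, h2]
      module
    · simp only [P, LinearMap.smul_apply, LinearMap.sub_apply, LinearMap.id_apply, (hW v).1 hv]
      module
  have htr := hP.trace
  let f := stdOrthonormalBasis ℝ W
  let L : List V := List.ofFn fun i => (f i : V)
  have hL1 : ∀ v ∈ L, ‖v‖ = 1 := by
    intro v hv
    obtain ⟨i, rfl⟩ := List.mem_ofFn.1 hv
    exact f.orthonormal.1 i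
  have hL2 : L.Pairwise fun a b => ⟪a, b⟫_ℝ = 0 := by
    rw [List.pairwise_ofFn]
    intro i j hij
    exact f.orthonormal.2 hij.ne
  have hlen : L.length = Module.finrank ℝ W := List.length_ofFn
  have hact : Act (pr L) σ := by
    intro v
    have hv : v = (1 / 2 : ℝ) • (v + σ v) + P v := by
      simp only [P, LinearMap.smul_apply, LinearMap.sub_apply, LinearMap.id_apply]
      module
    have hσv : σ v = (1 / 2 : ℝ) • (v + σ v) - P v := by
      simp only [P, LinearMap.smul_apply, LinearMap.sub_apply, LinearMap.id_apply]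
      module
    have a1 : involute (pr L) * io ((1 / 2 : ℝ) • (v + σ v)) =
        io ((1 / 2 : ℝ) • (v + σ v)) * pr L := by
      refine pr_comm_of_orth L fun w hw => ?_
      obtain ⟨i, rfl⟩ := List.mem_ofFn.1 hw
      rw [inner_smul_right, inner_add_right, ← hs, (hW _).1 (f i).2, inner_neg_left]
      simp
    have a2 : ∀ w ∈ W, involute (pr L) * io w = -(io w * pr L) := by
      intro w hw
      have h3 : w = ∑ i, f.repr ⟨w, hw⟩ i • (f i : V) := by
        have := congrArg Subtype.val (f.sum_repr ⟨w, hw⟩)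
        simpa using this.symm
      rw [h3]
      simp only [io, map_sum, map_smul, Finset.mul_sum, Finset.sum_mul, mul_smul_comm,
        smul_mul_assoc, ← Finset.sum_neg_distrib]
      refine Finset.sum_congr rfl fun i _ => ?_
      rw [pr_comm_of_mem L hL2 (List.mem_ofFn.2 ⟨i, rfl⟩), smul_neg]
    rw [hσv]
    nth_rewrite 1 [hv]
    rw [io, map_add, mul_add, a1, a2 _ (hP.map_mem v)]
    simp only [io, map_sub, sub_mul]
    abel
  have hu := hact.mul h
  have hid : σ ∘ₗ σ = LinearMap.id := LinearMap.ext h2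
  rw [hid] at hu
  obtain ⟨c, hc⟩ := scalar_of_act (stdOrthonormalBasis ℝ V) hu
  have hL : pr L = c • pr l := by
    rw [← mul_one (pr L), ← hg, ← mul_assoc, hc, smul_mul_assoc, one_mul]
  have hsq := pr_sq L hL1 hL2
  have hne : (-1 : ℝ) ^ (L.length + 1).choose 2 = c ^ 2 := by
    rw [hL, smul_mul_assoc, mul_smul_comm, hg, smul_smul] at hsq
    have := smul_left_injective ℝ (one_ne_zero (α := CliffordAlgebra (negForm V))) hsq
    rw [sq]
    exact this.symm
  have hc0 : c ≠ 0 := by
    rintro rfl
    simp at hne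
  have hk : L.length % 2 = 0 := by
    have a1 := involute_pr L
    rw [hL, map_smul, involute_pr l, he.neg_one_pow, one_smul, smul_smul] at a1
    have hl0 : pr l ≠ 0 := by
      intro h0
      rw [h0, mul_zero] at hg
      exact zero_ne_one hg
    have a2 := smul_left_injective ℝ hl0 a1
    rcases Nat.even_or_odd L.length with h | h
    · exact Nat.even_iff.1 h
    · simp only [h.neg_one_pow] at a2
      exact absurd (by linarith) hc0
  refine ⟨L.length, ?_, ?_⟩
  · rw [sign_choose hk] at hne
    by_contra h4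
    rw [if_neg h4] at hne
    nlinarith [sq_nonneg c]
  · rw [hlen, ← htr]
    simp only [P, map_smul, map_sub, LinearMap.trace_id, smul_eq_mul]
    ring

instance finite_clifford : Module.Finite ℝ (CliffordAlgebra (negForm V)) := by
  have : Module.Finite ℝ (ExteriorAlgebra ℝ V) :=
    Module.Finite.of_basis (Module.finBasis ℝ V).ExteriorAlgebra
  exact Module.Finite.equiv (equivExterior (negForm V)).symm

/-- the trace of left multiplication -/
noncomputable def tau : CliffordAlgebra (negForm V) →ₗ[ℝ] ℝ :=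
  LinearMap.trace ℝ _ ∘ₗ (Algebra.lmul ℝ (CliffordAlgebra (negForm V))).toLinearMap

omit [FiniteDimensional ℝ V] in
theorem tau_comm (a b : CliffordAlgebra (negForm V)) : tau (a * b) = tau (b * a) := by
  simp only [tau, LinearMap.comp_apply, AlgHom.toLinearMap_apply, map_mul]
  exact LinearMap.trace_mul_comm _ _ _

theorem tau_one : tau (1 : CliffordAlgebra (negForm V)) ≠ 0 := by
  simp only [tau, LinearMap.comp_apply, AlgHom.toLinearMap_apply, map_one, LinearMap.trace_one]
  exact_mod_cast Module.finrank_pos.ne'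

omit [FiniteDimensional ℝ V] in
theorem tau_eq_zero {y w : CliffordAlgebra (negForm V)} (hw : w * w = -1)
    (h : y * w = -(w * y)) : tau y = 0 := by
  have h1 : tau (y * w * w) = tau (w * (y * w)) := tau_comm _ _
  rw [mul_assoc, hw, h, mul_neg, mul_neg, ← mul_assoc, hw] at h1
  simp only [mul_one, map_neg, neg_mul, one_mul, neg_neg] at h1
  linarith

end Pool.Agent.P.MP_aa0c4d_al
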