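import Pool.Agent.P.MP_aa0c4d_al.Blocks

/-! Obstructions to strong reversibility. -/

namespace Pool.Agent.P.MP_aa0c4d_al

open CliffordAlgebra
open scoped InnerProductSpace

variable {n : ℕ}

theorem E_mul_inv (α β : ℕ → ℝ) (m : ℕ) (hm : 2 * m ≤ n) (h1 : ∀ j, α j ^ 2 + β j ^ 2 = 1) :
    E n α β m * E n α (fun j => -β j) m = 1 := by
  rw [E_mul _ _ _ _ _ hm, E_scalar _ _ _ fun j _ => by ring]
  rw [Finset.prod_eq_one fun j _ => by linear_combination h1 j, one_smul]

theorem trace_obstruction (α β : ℕ → ℝ) (m : ℕ) (hm : 2 * m ≤ n)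
    (h1 : ∀ j, α j ^ 2 + β j ^ 2 = 1) {g h : Cl n} (hg : g * g = 1) (hh : h * h = 1)
    (hx : E n α β m = g * h) (S : Finset ℕ) (hS : S ⊆ Finset.range m) (hodd : Odd S.card)
    (hc : Commute g (E n (fun j => if j ∈ S then 0 else 1) (fun j => if j ∈ S then 1 else 0) m))
    (hβ : ∀ j ∈ S, β j ≠ 0) (hα : ∀ j < m, j ∉ S → α j ≠ 0) : False := by
  have a1 : g * E n α β m * g = E n α (fun j => -β j) m := by
    have a0 : g * E n α β m * g * E n α β m = 1 := by
      rw [hx, ← mul_assoc g g h, hg, one_mul, ← mul_assoc, mul_assoc h g g, hg, mul_one, hh]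
    rw [← mul_one (g * E n α β m * g), ← E_mul_inv α β m hm h1, ← mul_assoc, a0, one_mul]
  set ω := E n (fun j => if j ∈ S then 0 else 1) (fun j => if j ∈ S then 1 else 0) m with hω
  have a2 : tau (ω * E n α β m) = tau (ω * E n α (fun j => -β j) m) := by
    rw [← a1, ← mul_assoc, ← mul_assoc, ← hc.eq, tau_comm _ g, ← mul_assoc, ← mul_assoc, hg,
      one_mul]
  rw [hω, E_mul _ _ _ _ _ hm, E_mul _ _ _ _ _ hm, tau_E _ _ _ hm, tau_E _ _ _ hm] at a2
  have a3 := mul_right_cancel₀ tau_one a2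
  have a4 : ∏ j ∈ Finset.range m, ((if j ∈ S then 0 else 1) * α j - (if j ∈ S then 1 else 0) * β j)
      = (∏ j ∈ Finset.range m, (if j ∈ S then (-1 : ℝ) else 1)) * ∏ j ∈ Finset.range m,
        ((if j ∈ S then 0 else 1) * α j - (if j ∈ S then 1 else 0) * -β j) := by
    rw [← Finset.prod_mul_distrib]
    refine Finset.prod_congr rfl fun j _ => ?_
    split_ifs <;> ring
  have a5 : ∏ j ∈ Finset.range m, (if j ∈ S then (-1 : ℝ) else 1) = -1 := by
    rw [Finset.prod_ite_mem, Finset.inter_eq_right.2 hS, Finset.prod_const, hodd.neg_one_pow]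
  have a6 : ∏ j ∈ Finset.range m,
      ((if j ∈ S then 0 else 1) * α j - (if j ∈ S then 1 else 0) * -β j) ≠ 0 := by
    refine Finset.prod_ne_zero_iff.2 fun j hj => ?_
    split_ifs with hjS
    · simpa using hβ j hjS
    · simpa using hα j (Finset.mem_range.1 hj) hjS
  rw [a4, a5] at a3
  apply a6
  linarith

theorem commute_pr_of_anti {y : Cl n} (hy : ∀ i < n, y * e n i = -(e n i * y))
    (l : List (EuclideanSpace ℝ (Fin n))) : y * pr l = (-1 : ℝ) ^ l.length • (pr l * y) := by
  have h1 : ∀ v : EuclideanSpace ℝ (Fin n), y * io v = -(io v * y) := by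
    intro v
    rw [← (EuclideanSpace.basisFun (Fin n) ℝ).sum_repr v]
    simp only [io, map_sum, map_smul, Finset.mul_sum, Finset.sum_mul, mul_smul_comm,
      smul_mul_assoc, ← Finset.sum_neg_distrib]
    refine Finset.sum_congr rfl fun i _ => ?_
    have := hy i i.2
    simp only [e, i.2, dif_pos, vec] at this
    rw [EuclideanSpace.basisFun_apply, this, smul_neg]
  induction l with
  | nil => simp
  | cons v l ih =>
    rw [pr_cons, ← mul_assoc, h1, neg_mul, mul_assoc, ih]
    simp [pow_succ, mul_assoc]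

/-- For `n ≡ 2 mod 4` some `β j` must vanish. -/
theorem necessity_two (α β : ℕ → ℝ) (h1 : ∀ j, α j ^ 2 + β j ^ 2 = 1) (hn : n % 4 = 2)
    (hβ : ∀ j < n / 2, β j ≠ 0) : ¬ StronglyReversible n (E n α β (n / 2)) := by
  rintro ⟨g, hg, h, -, hg2, hh2, hx⟩
  obtain ⟨l, hl, -, rfl⟩ := mem_spin_iff.1 hg
  have hm : 2 * (n / 2) ≤ n := by omega
  refine trace_obstruction α β _ hm h1 hg2 hh2 hx (Finset.range (n / 2)) subset_rfl
    (by rw [Finset.card_range]; exact Nat.odd_iff.2 (by omega)) ?_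
    (fun j hj => hβ j (Finset.mem_range.1 hj)) (fun j hj hj' => absurd (Finset.mem_range.2 hj) hj')
  have := commute_pr_of_anti (y := E n (fun j => if j ∈ Finset.range (n / 2) then 0 else 1)
    (fun j => if j ∈ Finset.range (n / 2) then 1 else 0) (n / 2)) ?_ l
  · rw [hl.neg_one_pow, one_smul] at this
    exact this.symm
  · intro i hi
    have hj : i / 2 < n / 2 := by omega
    rcases Nat.even_or_odd' i with ⟨j, rfl | rfl⟩
    · have hj : j < n / 2 := by omega
      rw [E_act_a _ _ _ hm hj (by simp [hj])]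
      simp [hj]
    · have hj : j < n / 2 := by omega
      rw [E_act_b _ _ _ hm hj (by simp [hj])]
      simp [hj]

theorem sum_range_pairs (d : ℕ → ℝ) (m : ℕ) :
    ∑ i ∈ Finset.range (2 * m), d i = ∑ j ∈ Finset.range m, (d (2 * j) + d (2 * j + 1)) := by
  induction m with
  | zero => simp
  | succ m ih =>
    rw [show 2 * (m + 1) = 2 * m + 1 + 1 by ring, Finset.sum_range_succ, Finset.sum_range_succ,
      Finset.sum_range_succ, ih, add_assoc]

/-- The main obstruction when at most one `α j` vanishes. -/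
theorem necessity_main (α β : ℕ → ℝ) (h1 : ∀ j, α j ^ 2 + β j ^ 2 = 1)
    (hq : ((Finset.range (n / 2)).filter fun j => α j = 0).card ≤ 1)
    (hsr : StronglyReversible n (E n α β (n / 2))) :
    ∃ k : ℕ, k % 4 = 0 ∧ |(n : ℝ) - 2 * k| <
      2 * ((Finset.range (n / 2)).filter fun j => β j = 0).card + 2 + (n % 2 : ℕ) := by
  obtain ⟨g, hg, h, hh, hg2, hh2, hx⟩ := hsr
  obtain ⟨l, hl, hl1, rfl⟩ := mem_spin_iff.1 hg
  obtain ⟨l', hl', hl1', rfl⟩ := mem_spin_iff.1 hh
  have hm : 2 * (n / 2) ≤ n := by omega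
  obtain ⟨σ, hσ, aσ⟩ := act_pr l hl1
  obtain ⟨τ, hτ, aτ⟩ := act_pr l' hl1'
  have iσ := aσ.invol hg2
  have sσ := symm_of_invol hσ iσ
  have sτ := symm_of_invol hτ (aτ.invol hh2)
  obtain ⟨k, hk, htr⟩ := trace_invol l hl hg2 hσ aσ
  refine ⟨k, hk, ?_⟩
  rw [finrank_euclideanSpace_fin] at htr
  rw [← htr]
  have ax := aσ.mul aτ
  rw [← hx] at ax
  have hinv : involute (E n α β (n / 2)) = E n α β (n / 2) := by
    rw [hx, map_mul, involute_pr, involute_pr, hl.neg_one_pow, hl'.neg_one_pow, one_smul, one_smul]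
  have hcancel : ∀ u v : EuclideanSpace ℝ (Fin n),
      io u * E n α β (n / 2) = io v * E n α β (n / 2) → u = v := by
    intro u v huv
    apply io_injective
    rw [← mul_one (io u), ← mul_one (io v), ← E_mul_inv α β _ hm h1, ← mul_assoc, huv, mul_assoc]
  let d : ℕ → ℝ := fun i => ⟪bv n i, σ (bv n i)⟫_ℝ
  have hnorm : ∀ v, ‖σ v‖ = ‖v‖ := fun v => by
    rw [norm_eq_sqrt_real_inner, hσ, ← norm_eq_sqrt_real_inner]
  have hd : ∀ i < n, |d i| ≤ 1 := fun i hi => by
    have := abs_real_inner_le_norm (bv n i) (σ (bv n i))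
    rwa [hnorm, bv_norm hi, one_mul] at this
  have hblock : ∀ j < n / 2, α j ≠ 0 → β j ≠ 0 → d (2 * j) + d (2 * j + 1) = 0 := by
    intro j hj ha hb
    have b1 := ax (bv n (2 * j))
    have b2 := ax (bv n (2 * j + 1))
    rw [hinv, ← e_eq, E_act_a _ _ _ hm hj (h1 j), e_eq, e_eq, io, io, ← map_smul, ← map_smul,
      ← map_add] at b1
    rw [hinv, ← e_eq, E_act_b _ _ _ hm hj (h1 j), e_eq, e_eq, io, io, ← map_smul, ← map_smul,
      ← map_add] at b2
    have c1 := congrArg σ (hcancel _ _ b1)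
    have c2 := congrArg σ (hcancel _ _ b2)
    simp only [LinearMap.comp_apply, iσ, map_add, map_smul] at c1 c2
    have c3 := sτ (bv n (2 * j)) (bv n (2 * j + 1))
    rw [← c1, ← c2, inner_add_left, inner_add_right, inner_smul_left, inner_smul_left,
      inner_smul_right, inner_smul_right, sσ, sσ] at c3
    simp only [conj_trivial] at c3
    have c4 : (2 * α j * β j) * (d (2 * j) + d (2 * j + 1)) = 0 := by
      simp only [d]
      linear_combination c3
    exact (mul_eq_zero.1 c4).resolve_left (mul_ne_zero (mul_ne_zero two_ne_zero ha) hb)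
  have hfix : ∀ i < n, ∀ ε : ℝ, ε ^ 2 = 1 → d i = ε → pr l * e n i = ε • (e n i * pr l) := by
    intro i hi ε hε hdi
    have c1 : σ (bv n i) = ε • bv n i := by
      have : ‖σ (bv n i) - ε • bv n i‖ ^ 2 = 0 := by
        rw [norm_sub_sq_real, inner_smul_right, real_inner_comm, norm_smul, hnorm, bv_norm hi]
        change 1 ^ 2 - 2 * (ε * d i) + _ = 0
        rw [hdi, mul_one, Real.norm_eq_abs, sq_abs]
        linear_combination -hε
      exact sub_eq_zero.1 (norm_eq_zero.1 (pow_eq_zero_iff two_ne_zero |>.1 this))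
    have c2 := aσ (bv n i)
    rw [involute_pr, hl.neg_one_pow, one_smul, c1, io, io, map_smul, smul_mul_assoc] at c2
    rw [e_eq]
    exact c2
  have hq' : ∀ j < n / 2, α j = 0 → |d (2 * j) + d (2 * j + 1)| < 2 := by
    intro j hj ha
    by_contra hc
    have da := abs_le.1 (hd (2 * j) (by omega))
    have db := abs_le.1 (hd (2 * j + 1) (by omega))
    obtain ⟨ε, hε, e1, e2⟩ : ∃ ε : ℝ, ε ^ 2 = 1 ∧ d (2 * j) = ε ∧ d (2 * j + 1) = ε := by
      rcases le_abs'.1 (not_lt.1 hc) with h | h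
      · exact ⟨-1, by norm_num, by linarith, by linarith⟩
      · exact ⟨1, by norm_num, by linarith, by linarith⟩
    have hw : Commute (pr l) (w n j) := by
      unfold Commute SemiconjBy w
      rw [← mul_assoc, hfix _ (by omega) ε hε e1, smul_mul_assoc, mul_assoc,
        hfix _ (by omega) ε hε e2, mul_smul_comm, smul_smul, ← sq, hε, one_smul, mul_assoc]
    refine trace_obstruction α β _ hm h1 hg2 hh2 hx {j} (by simpa using hj) (by simp) ?_ ?_ ?_
    · refine Commute.list_prod_right _ _ fun y hy => ?_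
      obtain ⟨i, -, rfl⟩ := List.mem_map.1 hy
      by_cases hij : i = j
      · simpa [hij] using hw
      · simp [hij]
    · intro i hi
      rw [Finset.mem_singleton.1 hi]
      intro hb
      have := h1 j
      rw [ha, hb] at this
      norm_num at this
    · intro i hi hij hai
      exact hij (Finset.mem_singleton.2 (Finset.card_le_one.1 hq i (by simp [hi, hai]) j
        (by simp [hj, ha])))
  have htrace : LinearMap.trace ℝ _ σ =
      ∑ j ∈ Finset.range (n / 2), (d (2 * j) + d (2 * j + 1)) + d (2 * (n / 2)) := by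
    rw [LinearMap.trace_eq_sum_inner σ (EuclideanSpace.basisFun (Fin n) ℝ), ← sum_range_pairs,
      ← Finset.sum_range_succ]
    have c1 : ∑ i : Fin n, ⟪EuclideanSpace.basisFun (Fin n) ℝ i,
        σ (EuclideanSpace.basisFun (Fin n) ℝ i)⟫_ℝ = ∑ i ∈ Finset.range n, d i := by
      rw [Finset.sum_range]
      refine Finset.sum_congr rfl fun i _ => ?_
      simp [d, bv]
    rw [c1]
    refine Finset.sum_subset (Finset.range_subset_range.2 (by omega)) fun i _ hi => ?_
    simp only [Finset.mem_range] at hi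
    simp [d, bv, hi]
  have hlast : |d (2 * (n / 2))| ≤ (n % 2 : ℕ) := by
    rcases Nat.mod_two_eq_zero_or_one n with h | h
    · have : ¬ 2 * (n / 2) < n := by omega
      simp [d, bv, this]
    · rw [h]
      simpa using hd _ (by omega)
  set Z := (Finset.range (n / 2)).filter fun j => β j = 0 with hZ
  set Q := (Finset.range (n / 2)).filter fun j => α j = 0 with hQ
  have hsplit : ∑ j ∈ Finset.range (n / 2), (d (2 * j) + d (2 * j + 1)) =
      ∑ j ∈ Z, (d (2 * j) + d (2 * j + 1)) + ∑ j ∈ Q, (d (2 * j) + d (2 * j + 1)) := by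
    rw [hZ, hQ, Finset.sum_filter, Finset.sum_filter, ← Finset.sum_add_distrib]
    refine Finset.sum_congr rfl fun j hj => ?_
    by_cases ha : α j = 0 <;> by_cases hb : β j = 0
    · have := h1 j
      rw [ha, hb] at this
      norm_num at this
    · simp [ha, hb]
    · simp [ha, hb]
    · simp [ha, hb, hblock j (Finset.mem_range.1 hj) ha hb]
  have hZb : |∑ j ∈ Z, (d (2 * j) + d (2 * j + 1))| ≤ 2 * Z.card := by
    refine (Finset.abs_sum_le_sum_abs _ _).trans ?_
    have : ∑ j ∈ Z, |d (2 * j) + d (2 * j + 1)| ≤ ∑ _j ∈ Z, (2 : ℝ) := by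
      refine Finset.sum_le_sum fun j hj => ?_
      have hj' : j < n / 2 := Finset.mem_range.1 (Finset.mem_filter.1 hj).1
      have da := hd (2 * j) (by omega)
      have db := hd (2 * j + 1) (by omega)
      linarith [abs_add_le (d (2 * j)) (d (2 * j + 1))]
    simpa [mul_comm] using this
  have hQb : |∑ j ∈ Q, (d (2 * j) + d (2 * j + 1))| < 2 := by
    rcases Finset.card_le_one_iff_subset_singleton.1 hq with ⟨j, hj⟩
    rcases Finset.subset_singleton_iff.1 hj with h0 | h0
    · simp [h0]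
    · have : j ∈ Q := by simp [h0]
      rw [h0, Finset.sum_singleton]
      exact hq' j (Finset.mem_range.1 (Finset.mem_filter.1 this).1) (Finset.mem_filter.1 this).2
  rw [htrace, hsplit]
  have t1 := abs_add_three (∑ j ∈ Z, (d (2 * j) + d (2 * j + 1)))
    (∑ j ∈ Q, (d (2 * j) + d (2 * j + 1))) (d (2 * (n / 2)))
  linarith

end Pool.Agent.P.MP_aa0c4d_al
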