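import Pool.Agent.P.MP_aa0c4d_al.Blocks

/-! Explicit reversing involutions. -/

namespace Pool.Agent.P.MP_aa0c4d_al

open CliffordAlgebra
open scoped InnerProductSpace

variable {n : ℕ}

theorem exists_monomial (S : Finset ℕ) (hS : ∀ i ∈ S, i < n) (h4 : S.card % 4 = 0) :
    ∃ g ∈ Spin n, g * g = 1 ∧
      ∀ i, g * e n i = (if i ∈ S then (-1 : ℝ) else 1) • (e n i * g) := by
  let l := S.toList.map (bv n)
  have hlen : l.length = S.card := by simp [l]
  have hev : Even l.length := by rw [hlen]; exact Nat.even_iff.2 (by omega)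
  have h1 : ∀ v ∈ l, ‖v‖ = 1 := by
    intro v hv
    obtain ⟨i, hi, rfl⟩ := List.mem_map.1 hv
    exact bv_norm (hS i (Finset.mem_toList.1 hi))
  have h2 : l.Pairwise fun a b => ⟪a, b⟫_ℝ = 0 := by
    rw [List.pairwise_map]
    exact S.nodup_toList.imp fun h => bv_orth h
  have hinv : involute (pr l) = pr l := by rw [involute_pr, hev.neg_one_pow, one_smul]
  refine ⟨pr l, mem_spin_iff.2 ⟨l, hev, h1, rfl⟩, ?_, fun i => ?_⟩
  · rw [pr_sq l h1 h2, hlen, sign_choose (by omega), if_pos h4, one_smul]
  · rw [e_eq]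
    split_ifs with hi
    · have := pr_comm_of_mem l h2 (List.mem_map.2 ⟨i, Finset.mem_toList.2 hi, rfl⟩)
      rw [hinv] at this
      rw [this, neg_one_smul]
    · have := pr_comm_of_orth l (v := bv n i) fun f hf => by
        obtain ⟨j, hj, rfl⟩ := List.mem_map.1 hf
        exact bv_orth fun h => hi (h ▸ Finset.mem_toList.1 hj)
      rw [hinv] at this
      rw [this, one_smul]

theorem sufficiency (α β : ℕ → ℝ) (h1 : ∀ j, α j ^ 2 + β j ^ 2 = 1) (R T F : Finset ℕ)
    (hR : R ⊆ Finset.range (n / 2)) (hT : T ⊆ Finset.range (n / 2)) (hRT : Disjoint R T)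
    (hF : ∀ i ∈ F, i = 2 * (n / 2) ∧ i < n)
    (h4 : (n / 2 - R.card + T.card + F.card) % 4 = 0)
    (h0 : ∀ j ∈ R ∪ T, α j * β j = 0) (hp : ∏ j ∈ R ∪ T, (α j ^ 2 - β j ^ 2) = 1) :
    StronglyReversible n (E n α β (n / 2)) := by
  have hm : 2 * (n / 2) ≤ n := by omega
  let S := ((Finset.range (n / 2) \ R).image fun j => 2 * j) ∪ (T.image fun j => 2 * j + 1) ∪ F
  have hTm : ∀ j ∈ T, j < n / 2 := fun j hj => Finset.mem_range.1 (hT hj)
  have hcard : S.card = n / 2 - R.card + T.card + F.card := by
    rw [Finset.card_union_of_disjoint, Finset.card_union_of_disjoint,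
      Finset.card_image_of_injective _ fun a b h => by simpa using h,
      Finset.card_image_of_injective _ fun a b h => by simpa using h,
      Finset.card_sdiff_of_subset hR, Finset.card_range]
    · rw [Finset.disjoint_left]
      intro a ha hb
      obtain ⟨i, -, rfl⟩ := Finset.mem_image.1 ha
      obtain ⟨j, -, hj⟩ := Finset.mem_image.1 hb
      omega
    · rw [Finset.disjoint_left]
      intro a ha hb
      have := hF a hb
      rcases Finset.mem_union.1 ha with ha | ha
      · obtain ⟨i, hi, rfl⟩ := Finset.mem_image.1 ha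
        have := Finset.mem_range.1 (Finset.mem_sdiff.1 hi).1
        omega
      · obtain ⟨i, hi, rfl⟩ := Finset.mem_image.1 ha
        omega
  have hS : ∀ i ∈ S, i < n := by
    intro a ha
    rcases Finset.mem_union.1 ha with ha | ha
    · rcases Finset.mem_union.1 ha with ha | ha
      · obtain ⟨i, hi, rfl⟩ := Finset.mem_image.1 ha
        have := Finset.mem_range.1 (Finset.mem_sdiff.1 hi).1
        omega
      · obtain ⟨i, hi, rfl⟩ := Finset.mem_image.1 ha
        have := hTm i hi
        omega
    · exact (hF a ha).2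
  have hSa : ∀ j < n / 2, (2 * j ∈ S ↔ j ∉ R) := by
    intro j hj
    simp only [S, Finset.mem_union, Finset.mem_image, Finset.mem_sdiff, Finset.mem_range]
    constructor
    · rintro ((⟨i, hi, h⟩ | ⟨i, -, h⟩) | h)
      · have : i = j := by omega
        exact this ▸ hi.2
      · omega
      · have := hF _ h
        omega
    · intro h
      exact Or.inl (Or.inl ⟨j, ⟨hj, h⟩, rfl⟩)
  have hSb : ∀ j < n / 2, (2 * j + 1 ∈ S ↔ j ∈ T) := by
    intro j hj
    simp only [S, Finset.mem_union, Finset.mem_image, Finset.mem_sdiff, Finset.mem_range]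
    constructor
    · rintro ((⟨i, hi, h⟩ | ⟨i, hi, h⟩) | h)
      · omega
      · have : i = j := by omega
        exact this ▸ hi
      · have := hF _ h
        omega
    · intro h
      exact Or.inl (Or.inr ⟨j, h, rfl⟩)
  obtain ⟨g, hg, hg2, hge⟩ := exists_monomial S hS (by rw [hcard]; exact h4)
  have hw : ∀ j < n / 2, g * w n j = (if j ∈ R ∪ T then (1 : ℝ) else -1) • (w n j * g) := by
    intro j hj
    rw [w, ← mul_assoc, hge, smul_mul_assoc, mul_assoc, hge, mul_smul_comm, smul_smul, mul_assoc]
    congr 1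
    simp only [hSa j hj, hSb j hj, Finset.mem_union]
    by_cases a : j ∈ R <;> by_cases b : j ∈ T
    · exact absurd b (Finset.disjoint_left.1 hRT a)
    all_goals simp [a, b]
  refine ⟨g, hg, g * E n α β (n / 2), spin_mul hg (E_mem_spin α β _ hm h1), hg2, ?_, ?_⟩
  · nth_rewrite 1 [conj_E α β _ hw]
    rw [mul_assoc, ← mul_assoc g g, hg2, one_mul, E_mul _ _ _ _ _ hm, E_scalar]
    · have : ∏ j ∈ Finset.range (n / 2), (α j * α j - (if j ∈ R ∪ T then 1 else -1) * β j * β j) =
          ∏ j ∈ Finset.range (n / 2), (if j ∈ R ∪ T then α j ^ 2 - β j ^ 2 else 1) := by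
        refine Finset.prod_congr rfl fun j _ => ?_
        split_ifs
        · ring
        · linear_combination h1 j
      rw [this, Finset.prod_ite_mem, Finset.inter_eq_right.2 (Finset.union_subset hR hT), hp,
        one_smul]
    · intro j _
      split_ifs with hj
      · linear_combination 2 * h0 j hj
      · ring
  · rw [← mul_assoc, hg2, one_mul]

end Pool.Agent.P.MP_aa0c4d_al
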